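import Pool.Agent.Helper568_LV.Line

set_option autoImplicit false

namespace Pool.Agent.Helper568.LV

open MvPolynomial IsDedekindDomain Pool.Agent.Helper568.LM Pool.Agent.H159R3.Exp
open scoped NumberField

/-- The curve. -/
theorem exp_curve {N r S : ℕ} {d : Fin r → ℕ} (hd : ∀ j, 1 ≤ d j) {k m : Fin S → ℕ}
    (hk : ∀ i, 1 ≤ k i) (hm : ∀ i, 1 ≤ m i) {δ : ℕ} (hδ : 1 ≤ δ)
    (hle : ∑ j, (d j + 1) + ∑ i, (k i - 1) * m i + max δ 2 ≤ 2 * (N + 1))
    {G : Fin r → MvPolynomial (Fin (N + 2)) ℂ} (hG : ∀ j, (G j).IsHomogeneous (d j))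
    {F : Fin S → MvPolynomial (Fin (N + 2)) ℂ} (hF : ∀ i, (F i).IsHomogeneous (k i * m i))
    {H : MvPolynomial (Fin (N + 2)) ℂ} (hH : H.IsHomogeneous δ)
    (hline : ∀ p q : Fin (N + 2) → ℂ, (∃ i j, p i * q j - p j * q i ≠ 0) →
      (∀ (j : Fin r) (s t : ℂ), eval (fun n => s * p n + t * q n) (G j) = 0) →
      ∃ s t : ℂ, eval (fun n => s * p n + t * q n) H ≠ 0) :
    ∃ (g : Fin 2 → ℂ → ℂ) (P : Fin (N + 2 + S) → MvPolynomial (Fin 3) ℂ),
      (∀ i, Differentiable ℂ (g i)) ∧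
      (∀ z x, eval (fun l => eval (ev g z) (P l)) (eqs k G F H x) = 0) ∧
      ∃ z z', (fun l => eval (ev g z) (P l)) ≠ fun l => eval (ev g z') (P l) := by
  obtain ⟨p, q, Λ, c, c', ρ, γ, ⟨i, j, hij⟩, hGl, hFl, hHl⟩ := line_H hd hk hm hδ hle hG hF hH
  have hΛ : Λ ≠ 0 := by
    rintro rfl
    obtain ⟨s, t, h⟩ := hline p q ⟨i, j, hij⟩ hGl
    exact h (by rw [hHl, zero_mul])
  obtain ⟨g, A, B, hg, h1, z, z', hne⟩ := curve_st (c := c) (c' := c') (a := 1) (b := δ - 1)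
    le_rfl hΛ
  obtain ⟨P, hPx, hPy⟩ : ∃ P : Fin (N + 2 + S) → MvPolynomial (Fin 3) ℂ,
      (∀ n, P (Fin.castAdd S n) = A * C (p n) + B * C (q n)) ∧
      ∀ i, P (Fin.natAdd (N + 2) i) =
        C (ρ i) * ∏ l ∈ Finset.range (m i), (A + C (γ i l) * B) :=
    ⟨Fin.append (fun n => A * C (p n) + B * C (q n))
      (fun i => C (ρ i) * ∏ l ∈ Finset.range (m i), (A + C (γ i l) * B)),
      fun n => Fin.append_left _ _ n, fun i => Fin.append_right _ _ i⟩
  have hx : ∀ z n, eval (ev g z) (P (Fin.castAdd S n)) =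
      eval (ev g z) A * p n + eval (ev g z) B * q n := by
    intro z n
    rw [hPx]
    simp only [map_add, map_mul, eval_C]
  have hy : ∀ z i, eval (ev g z) (P (Fin.natAdd (N + 2) i)) =
      ρ i * ∏ l ∈ Finset.range (m i), (eval (ev g z) A + γ i l * eval (ev g z) B) := by
    intro z i
    rw [hPy]
    simp only [map_add, map_mul, eval_C, map_prod]
  have hxc : ∀ z, ((fun l => eval (ev g z) (P l)) ∘ Fin.castAdd S) =
      fun n => eval (ev g z) A * p n + eval (ev g z) B * q n := by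
    intro z
    funext n
    rw [Function.comp_apply]
    exact hx z n
  refine ⟨g, P, hg, fun z x => ?_, z, z', fun h => hne ?_⟩
  · rcases x with j | _ | i
    · simp only [eqs]
      rw [eval_rename, hxc]
      exact hGl j _ _
    · simp only [eqs]
      rw [map_sub, eval_rename, hxc, hHl, h1, map_one, sub_self]
    · simp only [eqs]
      rw [map_sub, eval_rename, hxc, hFl, map_pow, eval_X]
      change (eval (ev g z) (P (Fin.natAdd (N + 2) i))) ^ k i - _ = 0
      rw [hy, sub_self]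
  · have h2 : ∀ n, (eval (ev g z) A - eval (ev g z') A) * p n +
        (eval (ev g z) B - eval (ev g z') B) * q n = 0 := by
      intro n
      have h3 := congrFun h (Fin.castAdd S n)
      simp only [hx] at h3
      linear_combination h3
    have h3 : (eval (ev g z) A - eval (ev g z') A) * (p i * q j - p j * q i) = 0 := by
      linear_combination q j * h2 i - q i * h2 j
    have h4 : (eval (ev g z) B - eval (ev g z') B) * (p i * q j - p j * q i) = 0 := by
      linear_combination p i * h2 j - p j * h2 i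
    exact ⟨sub_eq_zero.1 ((mul_eq_zero.1 h3).resolve_right hij),
      sub_eq_zero.1 ((mul_eq_zero.1 h4).resolve_right hij)⟩

theorem map_eqs {R R' : Type} [CommRing R] [CommRing R'] (φ : R →+* R') {M r S : ℕ}
    (k : Fin S → ℕ) (G : Fin r → MvPolynomial (Fin M) R) (F : Fin S → MvPolynomial (Fin M) R)
    (H : MvPolynomial (Fin M) R) (x : Fin r ⊕ Option (Fin S)) :
    map φ (eqs k G F H x) = eqs k (fun j => map φ (G j)) (fun i => map φ (F i)) (map φ H) x := by
  rcases x with j | _ | i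
  · simp only [eqs, map_rename]
  · simp only [eqs, map_rename, map_sub, map_one]
  · simp only [eqs, map_rename, map_sub, map_pow, map_X]

/-- Condition (i): the image of every (nonconstant) entire curve in the variety given by the
equations `E` is in the subvariety given by the equations `Z`. -/
def CurvesIn {K : Type} [Field K] {ι ι' : Type} {n : ℕ} (σ : K →+* ℂ)
    (E : ι → MvPolynomial (Fin n) (𝓞 K)) (Z : ι' → MvPolynomial (Fin n) (𝓞 K)) : Prop :=
  ∀ f : ℂ → Fin n → ℂ, Differentiable ℂ f →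
    (∀ z i, eval₂ (σ.comp (algebraMap (𝓞 K) K)) (f z) (E i) = 0) → (∃ z w, f z ≠ f w) →
    ∀ z j, eval₂ (σ.comp (algebraMap (𝓞 K) K)) (f z) (Z j) = 0

/-- No line of the projective space is contained in `G j = 0` (all `j`), `H = 0`. -/
def NoLine {M r : ℕ} (G : Fin r → MvPolynomial (Fin M) ℂ) (H : MvPolynomial (Fin M) ℂ) : Prop :=
  ∀ p q : Fin M → ℂ, (∃ i j, p i * q j - p j * q i ≠ 0) →
    (∀ (j : Fin r) (s t : ℂ), eval (fun n => s * p n + t * q n) (G j) = 0) →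
    ∃ s t : ℂ, eval (fun n => s * p n + t * q n) H ≠ 0

theorem main_H {K : Type} [Field K] [NumberField K] (σ : K →+* ℂ) {N r S : ℕ} {d : Fin r → ℕ}
    (hd : ∀ j, 1 ≤ d j) {k m : Fin S → ℕ} (hk : ∀ i, 1 ≤ k i) (hm : ∀ i, 1 ≤ m i) {δ : ℕ}
    (hδ : 1 ≤ δ) (hle : ∑ j, (d j + 1) + ∑ i, (k i - 1) * m i + max δ 2 ≤ 2 * (N + 1))
    {G : Fin r → MvPolynomial (Fin (N + 2)) (𝓞 K)} (hG : ∀ j, (G j).IsHomogeneous (d j))
    {F : Fin S → MvPolynomial (Fin (N + 2)) (𝓞 K)} (hF : ∀ i, (F i).IsHomogeneous (k i * m i))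
    {H : MvPolynomial (Fin (N + 2)) (𝓞 K)} (hH : H.IsHomogeneous δ)
    (hline : NoLine (fun j => map (σ.comp (algebraMap (𝓞 K) K)) (G j))
      (map (σ.comp (algebraMap (𝓞 K) K)) H))
    {ι : Type} {Z : ι → MvPolynomial (Fin (N + 2 + S)) (𝓞 K)}
    (hZ : {P : Fin (N + 2 + S) → ℂ |
      (∀ x, eval₂ (σ.comp (algebraMap (𝓞 K) K)) P (eqs k G F H x) = 0) ∧
        ∀ j, eval₂ (σ.comp (algebraMap (𝓞 K) K)) P (Z j) = 0}.Finite) :
    ¬ CurvesIn σ (eqs k G F H) Z ∧ ¬ FinitelyManyIntegral (eqs k G F H) Z := by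
  obtain ⟨g, P, hg, h1, z, z', hne⟩ := exp_curve hd hk hm hδ hle (fun j => (hG j).map _)
    (fun i => (hF i).map _) (hH.map _) hline
  obtain ⟨f, hf⟩ : ∃ f : ℂ → Fin (N + 2 + S) → ℂ, ∀ z, f z = fun l => eval (ev g z) (P l) :=
    ⟨fun z l => eval (ev g z) (P l), fun _ => rfl⟩
  have hfd : Differentiable ℂ f := by
    rw [differentiable_pi]
    intro l
    have h2 : (fun z => f z l) = fun z => eval (ev g z) (P l) := funext fun z => by rw [hf]
    rw [h2]
    exact differentiable_eval (ev_diff hg) (P l)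
  have hfE : ∀ z x, eval₂ (σ.comp (algebraMap (𝓞 K) K)) (f z) (eqs k G F H x) = 0 := by
    intro z x
    rw [eval₂_eq_eval_map, map_eqs, hf]
    exact h1 z x
  have hnc : ∃ z w, f z ≠ f w := ⟨z, z', by rw [hf, hf]; exact hne⟩
  have hcon : ¬ ∀ z j, eval₂ (σ.comp (algebraMap (𝓞 K) K)) (f z) (Z j) = 0 := by
    intro h
    obtain ⟨w, w', hw⟩ := hnc
    have h2 : Set.range f ⊆ {P : Fin (N + 2 + S) → ℂ |
        (∀ x, eval₂ (σ.comp (algebraMap (𝓞 K) K)) P (eqs k G F H x) = 0) ∧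
        ∀ j, eval₂ (σ.comp (algebraMap (𝓞 K) K)) P (Z j) = 0} := by
      rintro _ ⟨z, rfl⟩
      exact ⟨hfE z, h z⟩
    exact hw (hZ.countable.isTotallyDisconnected _ h2 (isPreconnected_range hfd.continuous)
      ⟨w, rfl⟩ ⟨w', rfl⟩)
  have hexp : ExpType f := by
    refine ⟨hfd, fun z => z, differentiable_id, ⟨0, 1, zero_ne_one⟩, 2, g, P, hg, fun z j => ?_⟩
    exact congrFun (hf z) j
  exact ⟨fun h => hcon (h f hfd hfE hnc), fun h => hcon (main _ _ h σ f hexp hfE hnc)⟩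

end Pool.Agent.Helper568.LV
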