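import Pool.Agent.Helper568_LM.MainS
import Pool.Agent.H159R3.Exp.BLV

/-!
Curves with exponential coordinates in the complement of a hypersurface.
-/

set_option autoImplicit false

namespace Pool.Agent.Helper568.LV

open MvPolynomial IsDedekindDomain Pool.Agent.Helper568.LM Pool.Agent.H159R3.Exp
open scoped NumberField

/-- the coordinates `x`, `y` -/
def pt {R : Type*} {M S : ℕ} (x : Fin M → R) (y : Fin S → R) : Fin (M + S) → R := Fin.append x y

/-- The equations `G j (x) = 0`, `y i ^ k i = F i (x)`, `H (x) = 1` in the variables `x`, `y`. -/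
noncomputable def eqs {R : Type*} [CommRing R] {M r S : ℕ} (k : Fin S → ℕ)
    (G : Fin r → MvPolynomial (Fin M) R) (F : Fin S → MvPolynomial (Fin M) R)
    (H : MvPolynomial (Fin M) R) : Fin r ⊕ Option (Fin S) → MvPolynomial (Fin (M + S)) R
  | Sum.inl j => rename (Fin.castAdd S) (G j)
  | Sum.inr (some i) => X (Fin.natAdd M i) ^ k i - rename (Fin.castAdd S) (F i)
  | Sum.inr none => rename (Fin.castAdd S) H - 1

/-- the variable functions -/
noncomputable def ev (g : Fin 2 → ℂ → ℂ) (z : ℂ) : Fin 3 → ℂ :=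
  Fin.cons z fun i => Complex.exp (g i z)

theorem ev_diff {g : Fin 2 → ℂ → ℂ} (hg : ∀ i, Differentiable ℂ (g i)) :
    Differentiable ℂ (ev g) := by
  rw [differentiable_pi]
  intro l
  refine Fin.cases ?_ (fun i => ?_) l
  · exact differentiable_id
  · exact (hg i).cexp

theorem curve_st {Λ c c' : ℂ} {a b : ℕ} (ha : 1 ≤ a) (hΛ : Λ ≠ 0) :
    ∃ (g : Fin 2 → ℂ → ℂ) (P Q : MvPolynomial (Fin 3) ℂ), (∀ i, Differentiable ℂ (g i)) ∧
      (∀ z, Λ * ((eval (ev g z) P + c * eval (ev g z) Q) ^ a *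
        (eval (ev g z) P + c' * eval (ev g z) Q) ^ b) = 1) ∧
      ∃ z z', ¬ (eval (ev g z) P = eval (ev g z') P ∧ eval (ev g z) Q = eval (ev g z') Q) := by
  by_cases hcb : c = c' ∨ b = 0
  · obtain ⟨lam, hlam⟩ : ∃ lam : ℂ, lam ^ (a + b) = Λ⁻¹ :=
      IsAlgClosed.exists_pow_nat_eq _ (by omega)
    refine ⟨fun _ _ => 0, C lam - C c * X 0, X 0, fun _ => differentiable_const _, fun z => ?_,
      0, 1, fun h => ?_⟩
    · have h0 : ev (fun _ _ => 0) z 0 = z := rfl
      simp only [map_sub, map_mul, eval_C, eval_X, h0]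
      have h1 : lam - c * z + c * z = lam := by ring
      rw [h1]
      rcases hcb with rfl | rfl
      · rw [h1, ← pow_add, hlam, mul_inv_cancel₀ hΛ]
      · rw [pow_zero, mul_one]
        rw [add_zero] at hlam
        rw [hlam, mul_inv_cancel₀ hΛ]
    · have h2 := h.2
      simp only [eval_X] at h2
      exact zero_ne_one h2
  · push Not at hcb
    obtain ⟨hc, hb⟩ := hcb
    have hcc : c - c' ≠ 0 := sub_ne_zero.2 hc
    obtain ⟨lam, hlam⟩ : ∃ lam : ℂ, lam ^ a = Λ⁻¹ := IsAlgClosed.exists_pow_nat_eq _ ha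
    -- `U = lam * exp (b z)`, `V = exp (- a z)`
    let T : MvPolynomial (Fin 3) ℂ := C (c - c')⁻¹ * (C lam * X 1 - X 2)
    refine ⟨![fun z => b * z, fun z => -(a * z)], C lam * X 1 - C c * T, T, ?_, fun z => ?_,
      0, 1, fun h => ?_⟩
    · intro i
      fin_cases i
      · exact (differentiable_const _).mul differentiable_id
      · exact ((differentiable_const _).mul differentiable_id).neg
    · have h1 : ev ![fun z => (b : ℂ) * z, fun z => -((a : ℂ) * z)] z 1 =
          Complex.exp (b * z) := rfl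
      have h2 : ev ![fun z => (b : ℂ) * z, fun z => -((a : ℂ) * z)] z 2 =
          Complex.exp (-(a * z)) := rfl
      simp only [T, map_sub, map_mul, eval_C, eval_X, h1, h2]
      have e1 : lam * Complex.exp (b * z) - c * ((c - c')⁻¹ * (lam * Complex.exp (b * z) -
          Complex.exp (-(a * z)))) + c * ((c - c')⁻¹ * (lam * Complex.exp (b * z) -
          Complex.exp (-(a * z)))) = lam * Complex.exp (b * z) := by ring
      have e2 : lam * Complex.exp (b * z) - c * ((c - c')⁻¹ * (lam * Complex.exp (b * z) -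
          Complex.exp (-(a * z)))) + c' * ((c - c')⁻¹ * (lam * Complex.exp (b * z) -
          Complex.exp (-(a * z)))) = Complex.exp (-(a * z)) := by
        field_simp
        ring
      rw [e1, e2, mul_pow, ← Complex.exp_nat_mul, ← Complex.exp_nat_mul, hlam, mul_assoc,
        ← mul_assoc, ← mul_assoc, mul_inv_cancel₀ hΛ, one_mul, ← Complex.exp_add]
      have e3 : (a : ℂ) * (b * z) + b * -(a * z) = 0 := by ring
      rw [e3, Complex.exp_zero]
    · obtain ⟨h3, h4⟩ := h
      have h5 : ∀ z, eval (ev ![fun z => (b : ℂ) * z, fun z => -((a : ℂ) * z)] z)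
          (C lam * X 1 - C c * T) + c' *
          eval (ev ![fun z => (b : ℂ) * z, fun z => -((a : ℂ) * z)] z) T =
          Complex.exp (-(a * z)) := by
        intro z
        have h1 : ev ![fun z => (b : ℂ) * z, fun z => -((a : ℂ) * z)] z 1 =
            Complex.exp (b * z) := rfl
        have h2 : ev ![fun z => (b : ℂ) * z, fun z => -((a : ℂ) * z)] z 2 =
            Complex.exp (-(a * z)) := rfl
        simp only [T, map_sub, map_mul, eval_C, eval_X, h1, h2]
        field_simp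
        ring
      have h6 : Complex.exp (-((a : ℂ) * 0)) = Complex.exp (-((a : ℂ) * 1)) := by
        rw [← h5 0, ← h5 1, h3, h4]
      rw [mul_zero, neg_zero, Complex.exp_zero, mul_one] at h6
      have h7 : ‖Complex.exp (-(a : ℂ))‖ = Real.exp (-(a : ℝ)) := by
        rw [Complex.norm_exp]
        simp
      rw [← h6, norm_one] at h7
      have h8 : Real.exp (-(a : ℝ)) < 1 := by
        rw [← Real.exp_zero]
        apply Real.exp_lt_exp.2
        have : (1 : ℝ) ≤ a := by exact_mod_cast ha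
        linarith
      linarith

/-- The line. -/
theorem line_H {N r S : ℕ} {d : Fin r → ℕ} (hd : ∀ j, 1 ≤ d j) {k m : Fin S → ℕ}
    (hk : ∀ i, 1 ≤ k i) (hm : ∀ i, 1 ≤ m i) {δ : ℕ} (hδ : 1 ≤ δ)
    (hle : ∑ j, (d j + 1) + ∑ i, (k i - 1) * m i + max δ 2 ≤ 2 * (N + 1))
    {G : Fin r → MvPolynomial (Fin (N + 2)) ℂ} (hG : ∀ j, (G j).IsHomogeneous (d j))
    {F : Fin S → MvPolynomial (Fin (N + 2)) ℂ} (hF : ∀ i, (F i).IsHomogeneous (k i * m i))
    {H : MvPolynomial (Fin (N + 2)) ℂ} (hH : H.IsHomogeneous δ) :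
    ∃ (p q : Fin (N + 2) → ℂ) (Λ c c' : ℂ) (ρ : Fin S → ℂ) (γ : Fin S → ℕ → ℂ),
      (∃ i j, p i * q j - p j * q i ≠ 0) ∧
      (∀ (j : Fin r) (s t : ℂ), eval (fun n => s * p n + t * q n) (G j) = 0) ∧
      (∀ (i : Fin S) (s t : ℂ), eval (fun n => s * p n + t * q n) (F i) =
        (ρ i * ∏ l ∈ Finset.range (m i), (s + γ i l * t)) ^ k i) ∧
      ∀ s t : ℂ, eval (fun n => s * p n + t * q n) H =
        Λ * ((s + c * t) ^ 1 * (s + c' * t) ^ (δ - 1)) := by
  obtain ⟨k', hk0, hks⟩ : ∃ k' : Fin (S + 1) → ℕ, k' 0 = 1 ∧ ∀ i : Fin S, k' i.succ = k i :=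
    ⟨Fin.cons 1 k, rfl, fun _ => rfl⟩
  obtain ⟨m', hm0, hms⟩ : ∃ m' : Fin (S + 1) → ℕ, m' 0 = δ ∧ ∀ i : Fin S, m' i.succ = m i :=
    ⟨Fin.cons δ m, rfl, fun _ => rfl⟩
  obtain ⟨w', hw0, hws⟩ : ∃ w' : Fin (S + 1) → ℕ, w' 0 = min δ 2 ∧ ∀ i : Fin S, w' i.succ = 0 :=
    ⟨Fin.cons (min δ 2) (fun _ => 0), rfl, fun _ => rfl⟩
  obtain ⟨q', hq0, hqs⟩ : ∃ q' : Fin (S + 1) → ℕ, q' 0 = 0 ∧ ∀ i : Fin S, q' i.succ = m i :=
    ⟨Fin.cons 0 m, rfl, fun _ => rfl⟩
  obtain ⟨e', he0, hes⟩ : ∃ e' : Fin (S + 1) → ℕ → ℕ, (∀ n, e' 0 n = if n = 0 then 1 else δ - 1) ∧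
      ∀ (i : Fin S) n, e' i.succ n = 1 :=
    ⟨Fin.cons (fun n => if n = 0 then 1 else δ - 1) (fun _ _ => 1), fun _ => rfl, fun _ _ => rfl⟩
  obtain ⟨F', hF0, hFs⟩ : ∃ F' : Fin (S + 1) → MvPolynomial (Fin (N + 2)) ℂ, F' 0 = H ∧
      ∀ i : Fin S, F' i.succ = F i := ⟨Fin.cons H F, rfl, fun _ => rfl⟩
  have hk' : ∀ i, 1 ≤ k' i := fun i => by
    refine Fin.cases ?_ (fun i => ?_) i
    · rw [hk0]
    · rw [hks]
      exact hk i
  have hm' : ∀ i, 1 ≤ m' i := fun i => by
    refine Fin.cases ?_ (fun i => ?_) i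
    · rw [hm0]
      exact hδ
    · rw [hms]
      exact hm i
  have he' : ∀ i n, n < w' i → 1 ≤ e' i n := fun i n => by
    refine Fin.cases (fun hn => ?_) (fun i hn => ?_) i
    · rw [he0]
      rw [hw0] at hn
      by_cases h : n = 0
      · rw [if_pos h]
      · rw [if_neg h]
        omega
    · rw [hes]
  have hD : ∀ i, ∑ n ∈ Finset.range (w' i), e' i n + q' i * k' i = k' i * m' i := fun i => by
    refine Fin.cases ?_ (fun i => ?_) i
    · rw [hw0, hq0, hk0, hm0, Finset.sum_congr rfl fun n _ => he0 n]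
      rcases Nat.lt_or_ge 1 δ with h | h
      · rw [min_eq_right h, Finset.sum_range_succ, Finset.sum_range_one, if_pos rfl,
          if_neg one_ne_zero]
        omega
      · have h1 : δ = 1 := by omega
        subst h1
        rfl
    · rw [hws, hqs, hks, hms, Finset.range_zero, Finset.sum_empty, zero_add, mul_comm]
  have hcost : ∑ j, (d j + 1) +
      ∑ i, (∑ n ∈ Finset.range (w' i), (e' i n - 1) + q' i * (k' i - 1)) ≤ 2 * N := by
    rw [Fin.sum_univ_succ]
    have h1 : ∀ i : Fin S, ∑ n ∈ Finset.range (w' i.succ), (e' i.succ n - 1) +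
        q' i.succ * (k' i.succ - 1) = (k i - 1) * m i := fun i => by
      rw [hws, hqs, hks, Finset.range_zero, Finset.sum_empty, zero_add, mul_comm]
    rw [Finset.sum_congr rfl fun i _ => h1 i, hw0, hq0, zero_mul, add_zero,
      Finset.sum_congr rfl fun n _ => congrArg (fun x => x - 1) (he0 n)]
    rcases Nat.lt_or_ge 1 δ with h | h
    · rw [min_eq_right h, Finset.sum_range_succ, Finset.sum_range_one, if_pos rfl,
        if_neg one_ne_zero]
      omega
    · have h1 : δ = 1 := by omega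
      subst h1
      rw [show min 1 2 = 1 from rfl, Finset.sum_range_one, if_pos rfl]
      omega
  have hF' : ∀ i, (F' i).IsHomogeneous (k' i * m' i) := fun i => by
    refine Fin.cases ?_ (fun i => ?_) i
    · rw [hF0, hk0, hm0, one_mul]
      exact hH
    · rw [hFs, hks, hms]
      exact hF i
  obtain ⟨p, q, c, γ, ρ, hpq, hGl, hFl⟩ := line_S (kk := ℂ) hd hk' hm' he' hD hcost hG hF'
  refine ⟨p, q, ρ 0, c 0 0, c 0 1, fun i => ρ i.succ, fun i => γ i.succ, hpq, hGl,
    fun i s t => ?_, fun s t => ?_⟩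
  · have h1 := hFl i.succ s t
    rw [hFs, hws, hqs, hks, Finset.range_zero, Finset.prod_empty, one_mul] at h1
    exact h1
  · have h1 := hFl 0 s t
    rw [hF0, hw0, hq0, hk0, Finset.range_zero, Finset.prod_empty, mul_one, pow_one,
      Finset.prod_congr rfl fun l _ => congrArg (fun x => (s + c 0 l * t) ^ x) (he0 l)] at h1
    rw [h1]
    rcases Nat.lt_or_ge 1 δ with h | h
    · rw [min_eq_right h, Finset.prod_range_succ, Finset.prod_range_one, if_pos rfl,
        if_neg one_ne_zero]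
      ring
    · have h2 : δ = 1 := by omega
      subst h2
      rw [show min 1 2 = 1 from rfl, Finset.prod_range_one, if_pos rfl, Nat.sub_self, pow_zero]
      ring

end Pool.Agent.Helper568.LV
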